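import Pool.Agent.L0h94.SP.StmF
import Pool.Agent.N630.PP.GP
import Pool.Agent.N187.PP.GN

/-! # Project SP, module COA: from classes to cocycles -/

set_option autoImplicit false

open Polynomial IsDedekindDomain
open scoped Classical

namespace Pool.Agent.L0h95.SP

open Pool.Agent.N874.PP (sW IsBeta Rt sg rr)
open Pool.Agent.TH115.GD (Pt act rs IsCoc LocTriv Comp Sep)
open Pool.Agent.L0h94.SP
open Pool.Agent.N187.PP (exists_roots rt_iff rt_map' F_natDegree norm_poly sg_mul_self sg_sq fix_sg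
  sg_act' two_act' locConst_apply prod_perm root_cases)

variable {K : Type} [Field K] {A B : K}

/-- points of order two are determined by the signs -/
theorem sg_ext (h6 : (6 : K) ≠ 0) (hd : 4 * A ^ 3 + 27 * B ^ 2 ≠ 0) {t₁ t₂ t₃ : Sep K}
    (n1 : t₁ ≠ t₂) (n2 : t₁ ≠ t₃) (n3 : t₂ ≠ t₃)
    (r1 : Rt A B t₁) (r2 : Rt A B t₂) (r3 : Rt A B t₃)
    {T T' : Pt (sW A B) (Sep K)} (hT : (2 : ℕ) • T = 0) (hT' : (2 : ℕ) • T' = 0)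
    (h : ∀ s, Rt A B s → sg T s = sg T' s) : T = T' := by
  obtain ⟨-, G2, G3, -⟩ := Pool.Agent.N630.PP.gp3 K (Sep K) A B h6 hd t₁ t₂ t₃ r1 r2 r3 n1 n2 n3
  have h2 : (2 : ℕ) • (T + T') = 0 := by rw [nsmul_add, hT, hT', add_zero]
  have key : ∀ s, Rt A B s → sg (T + T') s = 1 := by
    intro s hs
    rw [G2 T T' s hT hT' hs, h s hs, sg_mul_self]
  have h0 := G3 _ h2 (key _ r1) (key _ r2) (key _ r3)
  have hTT : T' + T' = 0 := by rw [← two_nsmul]; exact hT'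
  rw [eq_neg_of_add_eq_zero_left h0]
  exact (eq_neg_of_add_eq_zero_left hTT).symm

/-- the product of the values is a square in `K` -/
theorem prod_sq (h6 : (6 : K) ≠ 0) (hirr : Irreducible (X ^ 3 + C A * X + C B : K[X]))
    {t₁ t₂ t₃ : Sep K} (n1 : t₁ ≠ t₂) (n2 : t₁ ≠ t₃) (n3 : t₂ ≠ t₃)
    (r1 : Rt A B t₁) (r2 : Rt A B t₂) (r3 : Rt A B t₃) (h : K[X])
    (hN : IsSquare (Algebra.norm K (AdjoinRoot.mk (X ^ 3 + C A * X + C B : K[X]) h))) :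
    ∃ c : K, aeval t₁ h * aeval t₂ h * aeval t₃ h = algebraMap K (Sep K) c ^ 2 := by
  have : Fact (Irreducible (X ^ 3 + C A * X + C B : K[X])) := ⟨hirr⟩
  have ht : Rt A B (AdjoinRoot.root (X ^ 3 + C A * X + C B : K[X])) := by
    rw [rt_iff, AdjoinRoot.aeval_eq, AdjoinRoot.mk_self]
  have h3 : Module.finrank K (AdjoinRoot (X ^ 3 + C A * X + C B : K[X])) = 3 := by
    rw [(AdjoinRoot.powerBasis hirr.ne_zero).finrank, AdjoinRoot.powerBasis_dim, F_natDegree]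
  obtain ⟨c, hc⟩ := hN
  refine ⟨c, ?_⟩
  rw [← norm_poly h6 hirr ht h3 n1 n2 n3 r1 r2 r3 h, AdjoinRoot.aeval_eq, hc, map_mul, sq]

/-- the point given by the signs -/
theorem exists_T (h6 : (6 : K) ≠ 0) (hd : 4 * A ^ 3 + 27 * B ^ 2 ≠ 0) {t₁ t₂ t₃ : Sep K}
    (n1 : t₁ ≠ t₂) (n2 : t₁ ≠ t₃) (n3 : t₂ ≠ t₃)
    (r1 : Rt A B t₁) (r2 : Rt A B t₂) (r3 : Rt A B t₃) (β : Sep K → Sep K)
    (hne : ∀ t, Rt A B t → β t ≠ 0)
    (hβ : ∀ (σ : Sep K ≃ₐ[K] Sep K) t, Rt A B t → σ (β t) ^ 2 = β (σ t) ^ 2)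
    (c : K) (hc : β t₁ * β t₂ * β t₃ = algebraMap K (Sep K) c) (σ : Sep K ≃ₐ[K] Sep K) :
    ∃ T : Pt (sW A B) (Sep K), (2 : ℕ) • T = 0 ∧
      ∀ t, Rt A B t → σ (β t) = sg T (σ t) * β (σ t) := by
  obtain ⟨-, -, -, G4⟩ := Pool.Agent.N630.PP.gp3 K (Sep K) A B h6 hd t₁ t₂ t₃ r1 r2 r3 n1 n2 n3
  have hinv : ∀ s, σ ((σ⁻¹ : Sep K ≃ₐ[K] Sep K) s) = s := by
    intro s
    rw [← AlgEquiv.mul_apply, mul_inv_cancel, AlgEquiv.one_apply]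
  have hinv' : ∀ s, (σ⁻¹ : Sep K ≃ₐ[K] Sep K) (σ s) = s := by
    intro s
    rw [← AlgEquiv.mul_apply, inv_mul_cancel, AlgEquiv.one_apply]
  -- the sign at `s`
  let η : Sep K → Sep K := fun s => σ (β ((σ⁻¹ : Sep K ≃ₐ[K] Sep K) s)) / β s
  have hη : ∀ s, Rt A B s → η s = 1 ∨ η s = -1 := by
    intro s hs
    have h1 := hβ σ _ (rt_map' σ⁻¹ hs)
    rw [hinv] at h1
    have h2 : η s ^ 2 = 1 := by
      show (σ (β ((σ⁻¹ : Sep K ≃ₐ[K] Sep K) s)) / β s) ^ 2 = 1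
      rw [div_pow, h1, div_self (pow_ne_zero 2 (hne s hs))]
    rw [pow_two] at h2
    exact mul_self_eq_one_iff.1 h2
  have hprod : η t₁ * η t₂ * η t₃ = 1 := by
    have e1 : σ (β ((σ⁻¹ : Sep K ≃ₐ[K] Sep K) t₁)) * σ (β ((σ⁻¹ : Sep K ≃ₐ[K] Sep K) t₂)) *
        σ (β ((σ⁻¹ : Sep K ≃ₐ[K] Sep K) t₃)) = β t₁ * β t₂ * β t₃ := by
      rw [← map_mul, ← map_mul, prod_perm n1 n2 n3 r1 r2 r3 σ⁻¹ β, hc, AlgEquiv.commutes]
    have e2 : η t₁ * η t₂ * η t₃ = (σ (β ((σ⁻¹ : Sep K ≃ₐ[K] Sep K) t₁)) *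
        σ (β ((σ⁻¹ : Sep K ≃ₐ[K] Sep K) t₂)) * σ (β ((σ⁻¹ : Sep K ≃ₐ[K] Sep K) t₃))) /
        (β t₁ * β t₂ * β t₃) := by
      show σ (β ((σ⁻¹ : Sep K ≃ₐ[K] Sep K) t₁)) / β t₁ *
        (σ (β ((σ⁻¹ : Sep K ≃ₐ[K] Sep K) t₂)) / β t₂) *
        (σ (β ((σ⁻¹ : Sep K ≃ₐ[K] Sep K) t₃)) / β t₃) = _
      rw [div_mul_div_comm, div_mul_div_comm]
    rw [e2, e1, div_self]
    exact mul_ne_zero (mul_ne_zero (hne _ r1) (hne _ r2)) (hne _ r3)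
  obtain ⟨T, hT, s1, s2, s3⟩ := G4 _ _ _ (hη _ r1) (hη _ r2) (hη _ r3) hprod
  have hall : ∀ s, Rt A B s → sg T s = η s := by
    intro s hs
    rcases root_cases n1 n2 n3 r1 r2 r3 hs with rfl | rfl | rfl
    · exact s1
    · exact s2
    · exact s3
  refine ⟨T, hT, fun t ht => ?_⟩
  rw [hall _ (rt_map' σ ht)]
  show σ (β t) = σ (β ((σ⁻¹ : Sep K ≃ₐ[K] Sep K) (σ t))) / β (σ t) * β (σ t)
  rw [hinv', div_mul_cancel₀ _ (hne _ (rt_map' σ ht))]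

theorem t_COA : S_COA := by
  intro K _ A B h6 hd hirr h hcop hN
  obtain ⟨t₁, t₂, t₃, n1, n2, n3, r1, r2, r3, hall⟩ := exists_roots h6 hirr
  -- the values are not zero
  have hne : ∀ t : Sep K, Rt A B t → aeval t h ≠ 0 := by
    intro t ht h0
    obtain ⟨u, v, huv⟩ := hcop
    have h1 := congrArg (aeval t) huv
    rw [map_add, map_mul, map_mul, h0, (rt_iff t).1 ht, mul_zero, mul_zero, add_zero,
      map_one] at h1
    exact zero_ne_one h1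
  have h2 : (2 : Sep K) ≠ 0 := by
    intro h'
    have h'' : (6 : Sep K) = 0 := by linear_combination 3 * h'
    apply h6
    exact (algebraMap K (Sep K)).injective (a₁ := 6) (a₂ := 0) (by rw [map_zero, map_ofNat, h''])
  have hroot : ∀ x : Sep K, ∃ z, z ^ 2 = x := by
    intro x
    have : NeZero ((2 : ℕ) : Sep K) := ⟨by exact_mod_cast h2⟩
    exact IsSepClosed.exists_pow_nat_eq x 2
  choose r hr using hroot
  let β : Sep K → Sep K := fun t => r (aeval t h)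
  have hβ2 : ∀ t, β t ^ 2 = aeval t h := fun t => hr _
  have hβne : ∀ t, Rt A B t → β t ≠ 0 := by
    intro t ht h0
    apply hne t ht
    rw [← hβ2, h0]
    ring
  have hβσ : ∀ (σ : Sep K ≃ₐ[K] Sep K) t, Rt A B t → σ (β t) ^ 2 = β (σ t) ^ 2 := by
    intro σ t _
    rw [← map_pow, hβ2, hβ2]
    exact (aeval_algHom_apply σ.toAlgHom t h).symm
  obtain ⟨c, hc⟩ := prod_sq h6 hirr n1 n2 n3 r1 r2 r3 h hN
  obtain ⟨c', hc'⟩ : ∃ c' : K, β t₁ * β t₂ * β t₃ = algebraMap K (Sep K) c' := by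
    have h3 : (β t₁ * β t₂ * β t₃) ^ 2 = algebraMap K (Sep K) c ^ 2 := by
      rw [mul_pow, mul_pow, hβ2, hβ2, hβ2, hc]
    rcases sq_eq_sq_iff_eq_or_eq_neg.1 h3 with h4 | h4
    · exact ⟨c, h4⟩
    · exact ⟨-c, by rw [h4, map_neg]⟩
  choose f hf2 hf using exists_T h6 hd n1 n2 n3 r1 r2 r3 β hβne hβσ c' hc'
  have hsg : ∀ (σ : Sep K ≃ₐ[K] Sep K) t, Rt A B t → sg (f σ) (σ t) = σ (β t) / β (σ t) := by
    intro σ t ht
    rw [hf σ t ht, mul_div_cancel_right₀ _ (hβne _ (rt_map' σ ht))]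
  have hsurj : ∀ (σ : Sep K ≃ₐ[K] Sep K) s, Rt A B s → ∃ t, Rt A B t ∧ σ t = s := by
    intro σ s hs
    refine ⟨(σ⁻¹ : Sep K ≃ₐ[K] Sep K) s, rt_map' σ⁻¹ hs, ?_⟩
    rw [← AlgEquiv.mul_apply, mul_inv_cancel, AlgEquiv.one_apply]
  refine ⟨f, β, ⟨⟨?_, ?_⟩, hf2⟩, ?_, fun t _ => (hβ2 t).symm⟩
  · -- locally constant
    rw [IsLocallyConstant.iff_exists_open]
    intro σ
    have hx : ∀ x : Sep K, ∃ U : Set (Sep K ≃ₐ[K] Sep K), IsOpen U ∧ σ ∈ U ∧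
        ∀ τ ∈ U, τ x = σ x := fun x =>
      (IsLocallyConstant.iff_exists_open _).1 (locConst_apply (K := K) x) σ
    obtain ⟨U1, o1, m1, e1⟩ := hx t₁
    obtain ⟨U2, o2, m2, e2⟩ := hx t₂
    obtain ⟨U3, o3, m3, e3⟩ := hx t₃
    obtain ⟨V1, p1, q1, d1⟩ := hx (β t₁)
    obtain ⟨V2, p2, q2, d2⟩ := hx (β t₂)
    obtain ⟨V3, p3, q3, d3⟩ := hx (β t₃)
    refine ⟨(U1 ∩ U2 ∩ U3) ∩ (V1 ∩ V2 ∩ V3), ((o1.inter o2).inter o3).inter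
      ((p1.inter p2).inter p3), ⟨⟨⟨m1, m2⟩, m3⟩, ⟨⟨q1, q2⟩, q3⟩⟩, ?_⟩
    rintro τ ⟨⟨⟨a1, a2⟩, a3⟩, ⟨⟨b1, b2⟩, b3⟩⟩
    have hval : ∀ t, Rt A B t → τ t = σ t ∧ τ (β t) = σ (β t) := by
      intro t ht
      rcases hall t ht with rfl | rfl | rfl
      · exact ⟨e1 τ a1, d1 τ b1⟩
      · exact ⟨e2 τ a2, d2 τ b2⟩
      · exact ⟨e3 τ a3, d3 τ b3⟩
    apply sg_ext h6 hd n1 n2 n3 r1 r2 r3 (hf2 τ) (hf2 σ)
    intro s hs
    obtain ⟨t, ht, rfl⟩ := hsurj σ s hs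
    rw [hsg σ t ht, ← (hval t ht).1, hsg τ t ht, (hval t ht).2]
  · -- cocycle
    intro σ τ
    have hact : (2 : ℕ) • act (sW A B) (rs K σ) (f τ) = 0 := two_act' _ (hf2 τ)
    have hsum : (2 : ℕ) • (f σ + act (sW A B) (rs K σ) (f τ)) = 0 := by
      rw [nsmul_add, hf2, hact, add_zero]
    apply sg_ext h6 hd n1 n2 n3 r1 r2 r3 (hf2 _) hsum
    intro s hs
    obtain ⟨t, ht, rfl⟩ := hsurj (σ * τ) s hs
    obtain ⟨-, G2, -, -⟩ := Pool.Agent.N630.PP.gp3 K (Sep K) A B h6 hd t₁ t₂ t₃ r1 r2 r3 n1 n2 n3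
    rw [G2 _ _ _ (hf2 σ) hact hs, hsg (σ * τ) t ht]
    have ht' : Rt A B (τ t) := rt_map' τ ht
    have e1 : (σ * τ) t = σ (τ t) := AlgEquiv.mul_apply σ τ t
    have e2 : (σ * τ) (β t) = σ (τ (β t)) := AlgEquiv.mul_apply σ τ (β t)
    rw [e1, e2, hf τ t ht, map_mul, fix_sg, sg_act' Pool.Agent.N630.PP.gp4, hsg σ (τ t) ht']
    ring
  · intro t ht
    exact ⟨hβne t ht, fun σ => hf σ t ht⟩

end Pool.Agent.L0h95.SP
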